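import Pool.Agent.helper52.HY.Spec

set_option autoImplicit false

open Complex Metric Set Filter Topology MeasureTheory
open Pool.Agent.helper98.ILF Pool.Agent.helper16.Multibrot

noncomputable section

namespace HY

theorem DLN (hMOB : MOB_stmt) (hHDI : HDI_stmt) : DLN_stmt := by
  intro H L hd1 hmap hL x hx
  have h0 : (0 : ℂ) ∈ UD := mem_ball_self one_pos
  have ha : H 0 ∈ UD := hmap h0
  obtain ⟨m1, m2, _, m4, _⟩ := hMOB (H 0) ha
  have hUo : IsOpen UD := isOpen_ball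
  have hHd : ∀ z ∈ UD, DifferentiableAt ℂ H z := fun z hz => hd1.differentiableAt (hUo.mem_nhds hz)
  have hGd : ∀ z ∈ UD, DifferentiableAt ℂ (fun w => T (H 0) (H w)) z := fun z hz =>
    DifferentiableAt.comp z (m4.differentiableAt (hUo.mem_nhds (hmap hz))) (hHd z hz)
  have hpos : ∀ w ∈ UD, 0 < 1 - ‖w‖ ^ 2 := by
    intro w hw
    have h1 : ‖w‖ < 1 := mem_ball_zero_iff.1 hw
    have h2 : ‖w‖ ^ 2 < 1 := pow_lt_one₀ (norm_nonneg w) h1 (by norm_num)
    linarith
  have hL0 : 0 ≤ L := by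
    refine le_trans ?_ (hL 0 h0)
    unfold hd
    exact div_nonneg (norm_nonneg _) (hpos _ ha).le
  have hbound : ∀ z ∈ UD, ‖deriv (fun w => T (H 0) (H w)) z‖ ≤ L := by
    intro z hz
    have h1 := (hHDI.1 (H 0) H z ha (hHd z hz) (hmap hz)).1
    have h2 : hd (fun w => T (H 0) (H w)) z ≤ L := by rw [h1]; exact hL z hz
    have h3 : T (H 0) (H z) ∈ UD := (m1 (H z) (hmap hz)).1
    have h4 := hpos _ h3
    unfold hd at h2
    rw [div_le_iff₀ h4] at h2
    have h5 : L * (1 - ‖T (H 0) (H z)‖ ^ 2) ≤ L * 1 := by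
      apply mul_le_mul_of_nonneg_left _ hL0
      have := sq_nonneg ‖T (H 0) (H z)‖
      linarith
    calc ‖deriv (fun w => T (H 0) (H w)) z‖ ≤ L * (1 - ‖T (H 0) (H z)‖ ^ 2) := h2
      _ ≤ L * 1 := h5
      _ = L := mul_one L
  have hmv := Convex.norm_image_sub_le_of_norm_deriv_le (f := fun w => T (H 0) (H w)) (s := UD)
    hGd hbound (convex_ball (0 : ℂ) 1) h0 hx
  simp only [m2, sub_zero] at hmv
  exact hmv

end HY
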